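import Pool.Agent.Lib.MP_cb9b3e_co.ValTwo
import Pool.Agent.Lib.MP_cb9b3e_co.Gasch

/-!
# MP_cb9b3e_co : a non-recursive rule for the nim-number of the game GEN(G)

`nimGEN G` (file `Pool/Agent/Lib/MP_cb9b3e_co/Defs.lean`) is the nim-number of the achievement
game `GEN(G)` of the problem.
-/

set_option autoImplicit false
set_option linter.unusedSectionVars false

namespace Pool.Agent.Results.MP_cb9b3e_co.NimRule

open Pool.Agent.Lib.MP_cb9b3e_co Subgroup

/-- `g` is good: `g` is in no generating pair of `G`, but for every involution `t` of `G` the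
pair `g, t` can be completed by one element to a generating triple. -/
def Good {G : Type} [Group G] (g : G) : Prop :=
  (∀ h : G, Subgroup.closure {g, h} ≠ ⊤) ∧
    ∀ t : G, orderOf t = 2 → ∃ h : G, Subgroup.closure {g, t, h} = ⊤

/-- `g` is strong: `g` generates `G` together with every involution of `G`. -/
def Strong {G : Type} [Group G] (g : G) : Prop :=
  ∀ t : G, orderOf t = 2 → Subgroup.closure {g, t} = ⊤

/-- `g` is mixed: `g` is in a generating pair, `g` is not strong, and there is `g'` such that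
`g, g'` do not generate `G` but generate `G` together with every involution. -/
def Mixed {G : Type} [Group G] (g : G) : Prop :=
  (∃ h : G, Subgroup.closure {g, h} = ⊤) ∧ ¬ Strong g ∧
    ∃ g' : G, Subgroup.closure {g, g'} ≠ ⊤ ∧
      ∀ t : G, orderOf t = 2 → Subgroup.closure {g, g', t} = ⊤

open Classical in
/-- The rule. -/
noncomputable def rule (G : Type) [Group G] : ℕ :=
  if ∃ a : G, Strong a then (if ∃ g : G, Mixed g then 4 else 3)
  else if ∃ g : G, Good g then 1 else 0

section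

variable {G : Type} [Group G]

theorem pair_eq (g h : G) : Subgroup.closure ({g, h} : Set G) = ⊥ ⊔ zpowers g ⊔ zpowers h := by
  rw [Set.insert_eq, Subgroup.closure_union, ← zpowers_eq_closure, ← zpowers_eq_closure,
    bot_sup_eq]

theorem triple_eq (g t h : G) :
    Subgroup.closure ({g, t, h} : Set G) = ⊥ ⊔ zpowers g ⊔ zpowers t ⊔ zpowers h := by
  rw [Set.insert_eq, Set.insert_eq, Subgroup.closure_union, Subgroup.closure_union,
    ← zpowers_eq_closure, ← zpowers_eq_closure, ← zpowers_eq_closure, bot_sup_eq, sup_assoc]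

theorem sup_ne_top (hG : ¬ IsCyclic G) (g : G) : (⊥ : Subgroup G) ⊔ zpowers g ≠ ⊤ := by
  intro h
  rw [bot_sup_eq] at h
  apply hG
  exact ⟨g, fun x => by
    have : x ∈ (⊤ : Subgroup G) := mem_top x
    rw [← h] at this
    exact this⟩

theorem not_isCyclic_of_not_isSolvable (h : ¬ Group.IsSolvable G) : ¬ IsCyclic G := by
  intro hc
  exact h (Group.isSolvable_of_comm fun a b => (IsCyclic.commGroup (α := G)).mul_comm a b)

end

variable {G : Type} [Group G] [Fintype G] [DecidableEq G]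

theorem good_iff (g : G) :
    Good g ↔ ¬ D1 ((⊥ : Subgroup G) ⊔ zpowers g) ∧ Z ((⊥ : Subgroup G) ⊔ zpowers g) := by
  unfold Good D1 Z D1
  constructor
  · rintro ⟨h1, h2⟩
    refine ⟨?_, ?_⟩
    · rintro ⟨h, hh⟩
      exact h1 h (by rw [pair_eq]; exact hh)
    · intro t ht
      obtain ⟨h, hh⟩ := h2 t ht
      exact ⟨h, by rw [← triple_eq]; exact hh⟩
  · rintro ⟨h1, h2⟩
    refine ⟨?_, ?_⟩
    · intro h hh
      exact h1 ⟨h, by rw [← pair_eq]; exact hh⟩
    · intro t ht
      obtain ⟨h, hh⟩ := h2 t ht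
      exact ⟨h, by rw [triple_eq]; exact hh⟩

theorem ZZ_iff : ZZ (⊥ : Subgroup G) ↔ ∃ g : G, Good g := by
  unfold ZZ
  exact exists_congr fun g => (good_iff g).symm

theorem strong_iff (g : G) : Strong g ↔ A ((⊥ : Subgroup G) ⊔ zpowers g) := by
  unfold Strong A
  exact forall₂_congr fun t _ => by rw [pair_eq]

theorem AA_iff (hG : ¬ IsCyclic G) : AA (⊥ : Subgroup G) ↔ ∃ a : G, Strong a := by
  unfold AA
  exact exists_congr fun g => by
    rw [strong_iff]
    exact ⟨fun h => h.2, fun h => ⟨sup_ne_top hG g, h⟩⟩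

theorem mixed_iff (g : G) : Mixed g ↔ (D1 ((⊥ : Subgroup G) ⊔ zpowers g) ∧
    ¬ A ((⊥ : Subgroup G) ⊔ zpowers g) ∧ AA ((⊥ : Subgroup G) ⊔ zpowers g)) := by
  unfold Mixed
  rw [strong_iff]
  refine and_congr ?_ (and_congr Iff.rfl ?_)
  · unfold D1
    exact exists_congr fun h => by rw [pair_eq]
  · unfold AA A
    refine exists_congr fun g' => and_congr ?_ ?_
    · rw [pair_eq]
    · exact forall₂_congr fun t _ => by rw [triple_eq]

theorem BB_iff : BB (⊥ : Subgroup G) ↔ ∃ g : G, Mixed g := by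
  unfold BB
  exact exists_congr fun g => (mixed_iff g).symm

theorem cl_empty : cl (∅ : Finset G) = ⊥ := by
  unfold cl
  rw [Finset.coe_empty, Subgroup.closure_empty]

theorem not_D1_bot (hG : ¬ IsCyclic G) : ¬ D1 (⊥ : Subgroup G) := by
  rintro ⟨h, hh⟩
  exact sup_ne_top hG h hh

theorem outcome_empty (hG : ¬ IsCyclic G) : nimGEN G = 0 ↔ ¬ ZZ (⊥ : Subgroup G) := by
  have h := (outcome (∅ : Finset G)).2.1
  rw [cl_empty] at h
  exact h (not_D1_bot hG) (by simp)

theorem valZ_empty (hG : ¬ IsCyclic G) (ht : ∃ t : G, orderOf t = 2) (hZ : Z (⊥ : Subgroup G)) :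
    (¬ AA (⊥ : Subgroup G) → nimGEN G = 1) ∧
    (AA (⊥ : Subgroup G) → ¬ BB (⊥ : Subgroup G) → nimGEN G = 3) ∧
    (AA (⊥ : Subgroup G) → BB (⊥ : Subgroup G) → nimGEN G = 4) := by
  have h := val2Z (P := (∅ : Finset G)) ht
  rw [cl_empty] at h
  exact h (not_D1_bot hG) hZ (by simp)

theorem val2_empty (hG : ¬ IsCyclic G) (ht : ∃ t : G, orderOf t = 2) (h2 : D2 (⊥ : Subgroup G))
    (hZ : ¬ Z (⊥ : Subgroup G)) (hZZ : ZZ (⊥ : Subgroup G)) :
    (nimGEN G = 1 ∨ nimGEN G = 3 ∨ nimGEN G = 4) ∧ (EE G → nimGEN G = 1) := by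
  have h := val2 ht (∅ : Finset G)
  rw [cl_empty] at h
  exact (h (not_D1_bot hG) h2 hZ).2 (by simp) hZZ

theorem val3_empty (ht : ∃ t : G, orderOf t = 2) (h2 : ¬ D2 (⊥ : Subgroup G))
    (hZZ : ZZ (⊥ : Subgroup G)) :
    (nimGEN G = 1 ∨ nimGEN G = 3) ∧ (EE G → NA G → nimGEN G = 1) := by
  have h := val3 ht (∅ : Finset G)
  rw [cl_empty] at h
  exact (h h2 hZZ).2 (by simp)

theorem D2_iff : D2 (⊥ : Subgroup G) ↔ ∃ a b : G, Subgroup.closure {a, b} = ⊤ := by
  unfold D2 D1
  exact exists_congr fun a => exists_congr fun b => by rw [pair_eq]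

theorem exists_inv_of_even_card (h : Even (Fintype.card G)) : ∃ t : G, orderOf t = 2 := by
  have : Fact (Nat.Prime 2) := ⟨Nat.prime_two⟩
  exact exists_prime_orderOf_dvd_card 2 (even_iff_two_dvd.1 h)

theorem NA_of_max (h : ∀ M : Subgroup G, IsCoatom M → Even (Nat.card M)) : NA G := by
  intro K hK hA
  rcases eq_top_or_exists_le_coatom K with h1 | ⟨M, hM, hKM⟩
  · exact hK h1
  · by_cases hc : ∃ t : G, orderOf t = 2 ∧ t ∈ M
    · obtain ⟨t, ht, htM⟩ := hc
      exact not_A_of_inv ht htM hM.1 (A_mono hKM hA)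
    · push Not at hc
      exact odd_of_no_inv M hc (h M hM)

theorem EE_of_NA (h : NA G) : EE G := by
  intro K _ h2 _
  obtain ⟨g, hg⟩ := h2
  exact ⟨g, hg, fun ⟨x, hx1, hx2⟩ => h _ hx1 hx2⟩

theorem inv_of_even {s : G} (h : Even (orderOf s)) : ∃ t : G, orderOf t = 2 ∧ t ∈ zpowers s := by
  by_contra hc
  push Not at hc
  refine odd_of_no_inv (zpowers s) hc ?_
  rw [Nat.card_zpowers]
  exact h

theorem EE_of_pair {s x : G} (h : Subgroup.closure {s, x} = ⊤) (he : Even (orderOf s)) :
    EE G := by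
  intro K _ _ _
  obtain ⟨t, ht, hts⟩ := inv_of_even he
  refine ⟨s, ⟨x, ?_⟩, ?_⟩
  · rw [pair_eq] at h
    refine top_le_iff.1 (h ▸ ?_)
    exact sup_le_sup_right (sup_le_sup_right bot_le _) _
  · exact not_AA_of_inv ht ((le_sup_right : zpowers s ≤ K ⊔ zpowers s) hts)

/-- The cases in which the rule holds. -/
theorem rule_cases (hG : ¬ IsCyclic G) (ht : ∃ t : G, orderOf t = 2) :
    nimGEN G = rule G ∨
      (rule G = 1 ∧ ¬ Z (⊥ : Subgroup G) ∧ ZZ (⊥ : Subgroup G)) := by
  have hAA := AA_iff hG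
  have hBB := BB_iff (G := G)
  have hZZ := ZZ_iff (G := G)
  unfold rule
  by_cases h1 : AA (⊥ : Subgroup G)
  · left
    rw [if_pos (hAA.1 h1)]
    by_cases h2 : BB (⊥ : Subgroup G)
    · rw [if_pos (hBB.1 h2)]
      exact (valZ_empty hG ht (Z_of_AA h1)).2.2 h1 h2
    · rw [if_neg (fun h => h2 (hBB.2 h))]
      exact (valZ_empty hG ht (Z_of_AA h1)).2.1 h1 h2
  · rw [if_neg (fun h => h1 (hAA.2 h))]
    by_cases h3 : ZZ (⊥ : Subgroup G)
    · rw [if_pos (hZZ.1 h3)]
      by_cases h4 : Z (⊥ : Subgroup G)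
      · exact Or.inl ((valZ_empty hG ht h4).1 h1)
      · exact Or.inr ⟨rfl, h4, h3⟩
    · left
      rw [if_neg (fun h => h3 (hZZ.2 h))]
      exact (outcome_empty hG).2 h3

/-- **Theorem.** Let `G` be a finite noncyclic group of even order (every finite nonsolvable group
is one). Then the nim-number of the game `GEN(G)` is `rule G`, except possibly if `rule G = 1`,
`G` has a maximal subgroup of odd order, and one of the following holds:

* `G` is not generated by two elements; then the nim-number is `1` or `3`;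
* `G` is generated by two elements, but no quotient of `G` has a generating pair containing an
  element of even order; then the nim-number is `1`, `3` or `4`. -/
theorem result (G : Type) [Group G] [Fintype G] [DecidableEq G] (hG : ¬ IsCyclic G)
    (he : Even (Fintype.card G)) :
    nimGEN G = rule G ∨
    (rule G = 1 ∧ (∃ M : Subgroup G, IsCoatom M ∧ Odd (Nat.card M)) ∧
      (((¬ ∃ a b : G, Subgroup.closure {a, b} = ⊤) ∧ nimGEN G = 3) ∨
       ((∃ a b : G, Subgroup.closure {a, b} = ⊤) ∧ (nimGEN G = 3 ∨ nimGEN G = 4) ∧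
        ∀ (N : Subgroup G) [N.Normal] (s x : G ⧸ N), Subgroup.closure {s, x} = ⊤ →
          Odd (orderOf s)))) := by
  have ht := exists_inv_of_even_card he
  rcases rule_cases hG ht with h | ⟨hr, hZ, hZZ⟩
  · exact Or.inl h
  by_cases h1 : nimGEN G = 1
  · exact Or.inl (by rw [h1, hr])
  refine Or.inr ⟨hr, ?_, ?_⟩
  · by_contra hc
    push Not at hc
    have hNA : NA G := NA_of_max fun M hM => Nat.not_odd_iff_even.1 (hc M hM)
    have hEE := EE_of_NA hNA
    apply h1
    by_cases h2 : D2 (⊥ : Subgroup G)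
    · exact (val2_empty hG ht h2 hZ hZZ).2 hEE
    · exact (val3_empty ht h2 hZZ).2 hEE hNA
  · by_cases h2 : D2 (⊥ : Subgroup G)
    · right
      have h2' := D2_iff.1 h2
      refine ⟨h2', ?_, ?_⟩
      · rcases (val2_empty hG ht h2 hZ hZZ).1 with h | h | h
        · exact absurd h h1
        · exact Or.inl h
        · exact Or.inr h
      · intro N _ s x hsx
        by_contra ho
        obtain ⟨s', x', hs', _, h⟩ := gaschutz_quotient N h2' hsx
        apply h1
        refine (val2_empty hG ht h2 hZ hZZ).2 (EE_of_pair h ?_)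
        have h3 : orderOf s ∣ orderOf s' := by
          rw [← hs']
          exact orderOf_map_dvd (QuotientGroup.mk' N) s'
        exact (Nat.not_odd_iff_even.1 ho).trans_dvd h3
    · left
      refine ⟨fun h => h2 (D2_iff.2 h), ?_⟩
      rcases (val3_empty ht h2 hZZ).1 with h | h
      · exact absurd h h1
      · exact h

end Pool.Agent.Results.MP_cb9b3e_co.NimRule
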